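import Pool.Agent.Helper55.PC.Events
import Pool.Agent.Helper95.PC.Kill

/-!
# Block C7a of the pre-cutoff counterexample (MP_cf7fa9_pr): `tv_lower` (helper14)
-/

namespace Pool.Agent.Helper55.PC

open Finset
open scoped Classical

namespace C7a

lemma rs_eq_iff {i j : Fin 7} (hij : i ≠ j) (η : ℕ → Bool) (w : ℕ → Slot) (n : ℕ) (b : Bool) :
    rs i η w n = (j, b) ↔ w n = (j, b) := by
  by_cases h : (w n).1 = i
  · constructor
    · intro h'
      have h1 : (rs i η w n).1 = j := by rw [h']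
      rw [rs_fst] at h1
      exact absurd (h.symm.trans h1) hij
    · intro h'
      rw [h'] at h
      exact absurd h.symm hij
  · rw [rs_of_ne η h]

lemma lamp_rs {ℓ : ℕ} (p0 : ZMod ℓ → ZMod 2) (c0 : ZMod ℓ) (η : ℕ → Bool) (w : ℕ → Slot) (n : ℕ) :
    lamp p0 c0 (rs 3 η w) n = lamp p0 c0 w n := by
  induction n with
  | zero => rfl
  | succ n ih =>
    funext y
    simp only [lamp]
    rw [ih, cur_rs (by decide) (by decide)]
    simp only [rs_eq_iff (show (3 : Fin 7) ≠ 2 by decide)]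

lemma run_rs {R : Type} [Group R] (s q ρ : R) (η : ℕ → Bool) (w : ℕ → Slot) (n : ℕ) :
    run (rstep s q) ρ (rs 3 η w) n = run (rstep s q) ρ w n := by
  induction n with
  | zero => rfl
  | succ n ih =>
    simp only [run]
    rw [ih]
    unfold rstep
    simp only [rs_eq_iff (show (3 : Fin 7) ≠ 4 by decide),
      rs_eq_iff (show (3 : Fin 7) ≠ 5 by decide), rs_eq_iff (show (3 : Fin 7) ≠ 6 by decide)]

lemma exists_char {U : Type} [AddCommGroup U] (h2 : ∀ v : U, v + v = 0) {v : U} (hv : v ≠ 0) :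
    ∃ φ : U →+ ZMod 2, φ v ≠ 0 := by
  have hp : Fact (Nat.Prime 2) := ⟨Nat.prime_two⟩
  let mod2 : Module (ZMod 2) U :=
    AddCommGroup.zmodModule (n := 2) (fun x => by rw [two_nsmul]; exact h2 x)
  obtain ⟨φ, hφ⟩ : ∃ φ : Module.Dual (ZMod 2) U, φ v ≠ 0 := by
    by_contra h
    push Not at h
    exact hv ((Module.forall_dual_apply_eq_zero_iff (ZMod 2) v).1 h)
  exact ⟨φ.toAddMonoidHom, hφ⟩

lemma sg_one : sg 1 = -1 := by
  have : (1 : ZMod 2) ≠ 0 := by decide
  simp [sg, this]

lemma eq_one_of_ne {z : ZMod 2} (h : z ≠ 0) : z = 1 := by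
  revert h; revert z; decide

section

variable {k r L : ℕ} [NeZero k] [NeZero L] {R U : Type} [Group R] [Fintype R]
    [AddCommGroup U] [Fintype U] [DistribMulAction R U] {s q : R} {u : Idx k r → U}

lemma inc_rs (p0 : Site k L → ZMod 2) (c0 : Site k L) (ρ0 : R) (η : ℕ → Bool) (w : ℕ → Slot)
    (n : ℕ) : inc s q u p0 c0 ρ0 (rs 3 η w) n = inc s q u p0 c0 ρ0 w n := by
  unfold inc
  rw [lamp_rs, run_rs, cur_rs (by decide) (by decide)]

lemma killed_rs (p0 : Site k L → ZMod 2) (c0 : Site k L) (ρ0 : R)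
    (ψ : (Site k L × Lbl k r → U) →+ ZMod 2) (t : ℕ) (η : ℕ → Bool) (w : ℕ → Slot) :
    Killed s q u p0 c0 ρ0 ψ t (rs 3 η w) ↔ Killed s q u p0 c0 ρ0 ψ t w := by
  unfold Killed
  simp only [rs_fst, inc_rs]

lemma Ex_char (t : ℕ) (ψ : (Site k L × Lbl k r → U) →+ ZMod 2) (G : (ℕ → Slot) → ℝ)
    (hG : ∀ η w, G (rs 3 η w) = G w) :
    Ex t (fun w => sg (ψ (run (step s q u) ((0, 0, 0, 1) : St k r L R U) w t).1) * G w) =
      Ex t (fun w => (if Killed s q u 0 0 1 ψ t w then 0 else 1) * G w) := by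
  have h1 := kill t 3 (by decide) (fun n w => ψ (inc s q u (0 : Site k L → ZMod 2) 0 1 w n))
    (fun n η w => by rw [inc_rs]) G hG
  have h2 : ∀ w : ℕ → Slot, ψ (run (step s q u) ((0, 0, 0, 1) : St k r L R U) w t).1 =
      ∑ n ∈ range t, if w n = (3, true) then ψ (inc s q u (0 : Site k L → ZMod 2) 0 1 w n)
        else 0 := by
    intro w
    rw [char_run]
    simp
  simp only [h2]
  refine h1.trans (congrArg (Ex t) (funext fun w => ?_))
  congr 1
  exact if_congr Iff.rfl rfl rfl

/-- evaluation characters -/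
def evc (φ : U →+ ZMod 2) (ω : Site k L × Lbl k r) : (Site k L × Lbl k r → U) →+ ZMod 2 :=
  φ.comp (Pi.evalAddMonoidHom _ ω)

omit [NeZero k] [NeZero L] [Fintype U] in
lemma evc_apply (φ : U →+ ZMod 2) (ω : Site k L × Lbl k r) (h : Site k L × Lbl k r → U) :
    evc φ ω h = φ (h ω) := rfl

/-- not killed -/
noncomputable def al (s q : R) (u : Idx k r → U) (t : ℕ)
    (ψ : (Site k L × Lbl k r → U) →+ ZMod 2) (w : ℕ → Slot) : ℝ :=
  if Killed s q u 0 0 1 ψ t w then 0 else 1

omit [NeZero L] [Fintype R] [Fintype U] in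
lemma al_nonneg (t : ℕ) (ψ : (Site k L × Lbl k r → U) →+ ZMod 2) (w : ℕ → Slot) :
    0 ≤ al s q u t ψ w := by
  unfold al; split_ifs <;> norm_num

omit [NeZero L] [Fintype R] [Fintype U] in
lemma al_le_one (t : ℕ) (ψ : (Site k L × Lbl k r → U) →+ ZMod 2) (w : ℕ → Slot) :
    al s q u t ψ w ≤ 1 := by
  unfold al; split_ifs <;> norm_num

lemma al_rs (t : ℕ) (ψ : (Site k L × Lbl k r → U) →+ ZMod 2) (η : ℕ → Bool) (w : ℕ → Slot) :
    al s q u t ψ (rs 3 η w) = al s q u t ψ w := by
  unfold al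
  exact if_congr (killed_rs _ _ _ _ _ _ _) rfl rfl

omit [NeZero L] [Fintype R] [Fintype U] in
/-- an increment at `(x, f)` needs the cursor at a test point of `x` -/
lemma inc_ne_zero {x : Site k L} {f : Lbl k r} {w : ℕ → Slot} {n : ℕ}
    (h : inc s q u (0 : Site k L → ZMod 2) 0 1 w n (x, f) ≠ 0) :
    ∃ j i, (cur w n : Site k L) = x + tpt k L j i ∧ badLbl (labs x f (lamp 0 0 w n)) j := by
  by_contra hcon
  push Not at hcon
  apply h
  unfold inc kb
  have h1 : bfun u (x - (0 + (cur w n : Site k L))) (labs x f (lamp 0 0 w n)) = 0 := by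
    unfold bfun
    refine Finset.sum_eq_zero fun j _ => Finset.sum_eq_zero fun i _ => ?_
    rw [if_neg]
    rintro ⟨h2, h3⟩
    refine hcon j i ?_ h3
    rw [zero_add] at h2
    have h4 : (cur w n : Site k L) = x - (x - (cur w n : Site k L)) := by abel
    rw [h4, h2]
    abel
  simp only
  rw [h1, smul_zero]

/-- the two lamps are independent -/
lemma al_add_le (φ : U →+ ZMod 2) {x x' : Site k L} {f f' : Lbl k r} (t : ℕ) (w : ℕ → Slot)
    (hsep : ∀ j i j' i', x + tpt k L j i ≠ x' + tpt k L j' i') :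
    al s q u t (evc φ (x, f) + evc φ (x', f')) w ≤
      al s q u t (evc φ (x, f)) w * al s q u t (evc φ (x', f')) w := by
  have hdis : ∀ n, φ (inc s q u (0 : Site k L → ZMod 2) 0 1 w n (x, f)) ≠ 0 →
      φ (inc s q u (0 : Site k L → ZMod 2) 0 1 w n (x', f')) = 0 := by
    intro n h1
    by_contra h2
    have e1 : inc s q u (0 : Site k L → ZMod 2) 0 1 w n (x, f) ≠ 0 := by
      intro h; rw [h, map_zero] at h1; exact h1 rfl
    have e2 : inc s q u (0 : Site k L → ZMod 2) 0 1 w n (x', f') ≠ 0 := by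
      intro h; rw [h, map_zero] at h2; exact h2 rfl
    obtain ⟨j, i, h3, -⟩ := inc_ne_zero e1
    obtain ⟨j', i', h4, -⟩ := inc_ne_zero e2
    exact hsep j i j' i' (h3.symm.trans h4)
  by_cases hA : Killed s q u 0 0 1 (evc φ (x, f) + evc φ (x', f')) t w
  · have : al s q u t (evc φ (x, f) + evc φ (x', f')) w = 0 := if_pos hA
    rw [this]
    exact mul_nonneg (al_nonneg _ _ _) (al_nonneg _ _ _)
  · have h1 : ¬ Killed s q u 0 0 1 (evc φ (x, f)) t w := by
      rintro ⟨n, hn, h3, h4⟩
      apply hA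
      refine ⟨n, hn, h3, ?_⟩
      rw [AddMonoidHom.add_apply, evc_apply, evc_apply, hdis n h4, add_zero]
      exact h4
    have h2 : ¬ Killed s q u 0 0 1 (evc φ (x', f')) t w := by
      rintro ⟨n, hn, h3, h4⟩
      apply hA
      refine ⟨n, hn, h3, ?_⟩
      rw [AddMonoidHom.add_apply, evc_apply, evc_apply]
      by_cases h5 : φ (inc s q u (0 : Site k L → ZMod 2) 0 1 w n (x, f)) = 0
      · rw [h5, zero_add]
        exact h4
      · exact absurd (hdis n h5) h4
    have e1 : al s q u t (evc φ (x, f)) w = 1 := if_neg h1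
    have e2 : al s q u t (evc φ (x', f')) w = 1 := if_neg h2
    rw [e1, e2, mul_one]
    exact al_le_one _ _ _

omit [NeZero L] [Fintype R] [Fintype U] in
lemma al_of_NB (φ : U →+ ZMod 2) {x : Site k L} {f : Lbl k r} {t : ℕ} {w : ℕ → Slot}
    (h : NB x f t w) : al s q u t (evc φ (x, f)) w = 1 := by
  apply if_neg
  rintro ⟨n, hn, h3, h4⟩
  have e1 : inc s q u (0 : Site k L → ZMod 2) 0 1 w n (x, f) ≠ 0 := by
    intro h0
    rw [evc_apply, h0, map_zero] at h4
    exact h4 rfl
  obtain ⟨j, i, h5, h6⟩ := inc_ne_zero e1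
  exact h n hn j i h5 h6

omit [NeZero k] [NeZero L] [Fintype U] in
lemma card_Lbl [NeZero k] : Fintype.card (Lbl k r) = 2 ^ (k * r) := by
  simp only [Lbl, Fintype.card_fun, ZMod.card, Fintype.card_fin]
  rw [← pow_mul, mul_comm]

/-- characters have mean zero over the states -/
lemma sum_char_zero (ψ : (Site k L × Lbl k r → U) →+ ZMod 2) (hψ : ψ ≠ 0) :
    ∑ y : St k r L R U, sg (ψ y.1) = 0 := by
  obtain ⟨v0, hv0⟩ : ∃ v0, ψ v0 ≠ 0 := by
    by_contra h
    push Not at h
    exact hψ (AddMonoidHom.ext h)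
  let e : St k r L R U ≃ St k r L R U := (Equiv.addRight v0).prodCongr (Equiv.refl _)
  have h1 : ∑ y : St k r L R U, sg (ψ y.1) = ∑ y : St k r L R U, sg (ψ (e y).1) :=
    (Equiv.sum_comp e (fun y => sg (ψ y.1))).symm
  have h2 : ∑ y : St k r L R U, sg (ψ (e y).1) = - ∑ y : St k r L R U, sg (ψ y.1) := by
    rw [← Finset.sum_neg_distrib]
    refine Finset.sum_congr rfl fun y _ => ?_
    have : (e y).1 = y.1 + v0 := rfl
    rw [this, map_add, sg_add, eq_one_of_ne hv0, sg_one]
    ring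
  rw [h2] at h1
  linarith

end

lemma tv_ge_set {V : Type} [Fintype V] [Nonempty V] (m : V → ℝ) (hm : ∑ y, m y = 1)
    (S : Finset V) : ∑ y ∈ S, m y - (S.card : ℝ) / (Fintype.card V : ℝ) ≤
      (1 / 2) * ∑ y, |m y - 1 / (Fintype.card V : ℝ)| := by
  have hc : (0 : ℝ) < Fintype.card V := by
    have : 0 < Fintype.card V := Fintype.card_pos
    exact_mod_cast this
  set a : V → ℝ := fun y => m y - 1 / (Fintype.card V : ℝ) with ha
  have h1 : ∑ y, a y = 0 := by
    simp only [ha]
    rw [Finset.sum_sub_distrib, hm]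
    simp only [Finset.sum_const, Finset.card_univ, nsmul_eq_mul]
    field_simp
    ring
  have h2 : ∑ y, a y = ∑ y ∈ S, a y + ∑ y ∈ Sᶜ, a y := (Finset.sum_add_sum_compl S a).symm
  have h3 : ∑ y, |a y| = ∑ y ∈ S, |a y| + ∑ y ∈ Sᶜ, |a y| :=
    (Finset.sum_add_sum_compl S fun y => |a y|).symm
  have h4 : ∑ y ∈ S, a y ≤ ∑ y ∈ S, |a y| := Finset.sum_le_sum fun y _ => le_abs_self _
  have h5 : -∑ y ∈ Sᶜ, a y ≤ ∑ y ∈ Sᶜ, |a y| := by
    rw [← Finset.sum_neg_distrib]
    exact Finset.sum_le_sum fun y _ => neg_le_abs _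
  have h6 : ∑ y ∈ S, a y = ∑ y ∈ S, m y - (S.card : ℝ) / (Fintype.card V : ℝ) := by
    simp only [ha]
    rw [Finset.sum_sub_distrib]
    simp only [Finset.sum_const, nsmul_eq_mul]
    ring
  rw [← h6]
  linarith

lemma sum_Pr {V : Type} [Fintype V] (t : ℕ) (g : (ℕ → Slot) → V) (S : Finset V) :
    ∑ y ∈ S, Pr t (fun w => g w = y) = Pr t (fun w => g w ∈ S) := by
  unfold Pr
  rw [← Ex_sum]
  congr 1
  funext w
  by_cases h : g w ∈ S
  · rw [if_pos h, Finset.sum_eq_single_of_mem (g w) h]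
    · simp
    · intro b _ hb
      rw [if_neg hb.symm]
  · rw [if_neg h]
    refine Finset.sum_eq_zero fun b hb => ?_
    rw [if_neg]
    rintro rfl
    exact h hb

end C7a

open C7a in
theorem tv_lower {k r L : ℕ} [NeZero k] [NeZero L] {R U : Type} [Group R] [Fintype R]
    [AddCommGroup U] [Fintype U] [DistribMulAction R U] {s q : R} {u : Idx k r → U} {W : Pat}
    (hG : GW s q u W) (hu : ∀ i, u i ≠ 0) (X : Finset (Site k L))
    (hsep : ∀ x ∈ X, ∀ x' ∈ X, x ≠ x' → ∀ j i j' i', x + tpt k L j i ≠ x' + tpt k L j' i')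
    (t : ℕ) (A0 : ℝ) (hA0 : 0 < A0) :
    Pr t (fun w => A0 ≤ ((X.filter (fun x => ∃ f : Lbl k r, NB x f t w)).card : ℝ)) -
      8 * X.card * 4 ^ (k * r) / A0 ^ 2 ≤
    (1 / 2) * ∑ y : St k r L R U, |Pr t (fun w => run (step s q u) (0, 0, 0, 1) w t = y) -
      1 / (Fintype.card (St k r L R U) : ℝ)| := by
  obtain ⟨φ, hφ⟩ := exists_char hG.two (hu (0, false, 0))
  let z0 : St k r L R U := (0, 0, 0, 1)
  let P : Finset (Site k L × Lbl k r) := X ×ˢ (univ : Finset (Lbl k r))
  let Φ : (Site k L × Lbl k r → U) → ℝ := fun h => ∑ ω ∈ P, sg (evc φ ω h)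
  let F : (ℕ → Slot) → ℝ := fun w => Φ (run (step s q u) z0 w t).1
  let A : (ℕ → Slot) → ℝ := fun w => ∑ ω ∈ P, al s q u t (evc φ ω) w
  have hArs : ∀ η w, A (rs 3 η w) = A w := by
    intro η w
    exact Finset.sum_congr rfl fun ω _ => al_rs _ _ _ _
  have hPcard : (P.card : ℝ) = X.card * 2 ^ (k * r) := by
    simp only [P]
    rw [Finset.card_product, Finset.card_univ, card_Lbl]
    push_cast
    ring
  -- E[F A] = E[A^2]
  have hFA : Ex t (fun w => F w * A w) = Ex t (fun w => A w * A w) := by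
    have e1 : (fun w => F w * A w) = fun w => ∑ ω ∈ P,
        sg (evc φ ω (run (step s q u) z0 w t).1) * A w := by
      funext w
      simp only [F, Φ]
      rw [Finset.sum_mul]
    have e2 : (fun w => A w * A w) = fun w => ∑ ω ∈ P, al s q u t (evc φ ω) w * A w := by
      funext w
      conv_lhs => simp only [A]
      rw [Finset.sum_mul]
    rw [e1, e2, Ex_sum, Ex_sum]
    exact Finset.sum_congr rfl fun ω _ => Ex_char t (evc φ ω) A hArs
  -- E[F^2]
  have hFF : Ex t (fun w => F w * F w) ≤ Ex t (fun w => A w * A w) + X.card * 4 ^ (k * r) := by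
    have e1 : (fun w => F w * F w) = fun w => ∑ ω ∈ P, ∑ ω' ∈ P,
        sg ((evc φ ω + evc φ ω') (run (step s q u) z0 w t).1) * 1 := by
      funext w
      simp only [F, Φ]
      rw [Finset.sum_mul_sum]
      refine Finset.sum_congr rfl fun ω _ => Finset.sum_congr rfl fun ω' _ => ?_
      rw [AddMonoidHom.add_apply, sg_add, mul_one]
    have e2 : Ex t (fun w => F w * F w) = Ex t (fun w => ∑ ω ∈ P, ∑ ω' ∈ P,
        al s q u t (evc φ ω + evc φ ω') w) := by
      rw [e1, Ex_sum, Ex_sum]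
      refine Finset.sum_congr rfl fun ω _ => ?_
      rw [Ex_sum, Ex_sum]
      refine Finset.sum_congr rfl fun ω' _ => ?_
      have := Ex_char (s := s) (q := q) (u := u) t (evc φ ω + evc φ ω') (fun _ => 1)
        (fun _ _ => rfl)
      rw [this]
      congr 1
      funext w
      rw [mul_one]
      rfl
    rw [e2]
    have e3 : ∀ w, (∑ ω ∈ P, ∑ ω' ∈ P, al s q u t (evc φ ω + evc φ ω') w) ≤
        A w * A w + X.card * 4 ^ (k * r) := by
      intro w
      have e4 : (∑ ω ∈ P, ∑ ω' ∈ P, al s q u t (evc φ ω + evc φ ω') w) ≤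
          ∑ ω ∈ P, ∑ ω' ∈ P, (al s q u t (evc φ ω) w * al s q u t (evc φ ω') w +
            if ω.1 = ω'.1 then (1 : ℝ) else 0) := by
        refine Finset.sum_le_sum fun ω hω => Finset.sum_le_sum fun ω' hω' => ?_
        have hx : ω.1 ∈ X := (Finset.mem_product.1 hω).1
        have hx' : ω'.1 ∈ X := (Finset.mem_product.1 hω').1
        by_cases h : ω.1 = ω'.1
        · rw [if_pos h]
          have h1 := al_le_one (s := s) (q := q) (u := u) t (evc φ ω + evc φ ω') w
          have h2 := mul_nonneg (al_nonneg (s := s) (q := q) (u := u) t (evc φ ω) w)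
            (al_nonneg (s := s) (q := q) (u := u) t (evc φ ω') w)
          linarith
        · rw [if_neg h, add_zero]
          exact al_add_le φ (x := ω.1) (x' := ω'.1) (f := ω.2) (f' := ω'.2) t w
            (hsep _ hx _ hx' h)
      refine e4.trans (le_of_eq ?_)
      simp only [Finset.sum_add_distrib]
      congr 1
      · simp only [A]
        rw [Finset.sum_mul_sum]
      · have e5 : ∀ ω ∈ P, (∑ ω' ∈ P, if ω.1 = ω'.1 then (1 : ℝ) else 0) = 2 ^ (k * r) := by
          intro ω hω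
          have hx : ω.1 ∈ X := (Finset.mem_product.1 hω).1
          have e6 : ∀ x' : Site k L, (∑ _f : Lbl k r, if ω.1 = x' then (1 : ℝ) else 0) =
              if ω.1 = x' then 2 ^ (k * r) else 0 := by
            intro x'
            split_ifs
            · rw [Finset.sum_const, Finset.card_univ, card_Lbl, nsmul_eq_mul, mul_one]
              push_cast
              rfl
            · rw [Finset.sum_const_zero]
          simp only [P]
          rw [Finset.sum_product]
          simp only [e6]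
          rw [Finset.sum_eq_single_of_mem ω.1 hx]
          · simp
          · intro b _ hb
            rw [if_neg hb.symm]
        rw [Finset.sum_congr rfl e5, Finset.sum_const, nsmul_eq_mul, hPcard]
        have : (4 : ℝ) ^ (k * r) = 2 ^ (k * r) * 2 ^ (k * r) := by
          rw [← mul_pow]; norm_num
        rw [this]
        ring
    calc Ex t (fun w => ∑ ω ∈ P, ∑ ω' ∈ P, al s q u t (evc φ ω + evc φ ω') w)
        ≤ Ex t (fun w => A w * A w + X.card * 4 ^ (k * r)) := Ex_mono e3
      _ = _ := by rw [Ex_add, Ex_const]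
  -- E[(F-A)^2]
  have hVar : Ex t (fun w => (F w - A w) ^ 2) ≤ X.card * 4 ^ (k * r) := by
    have e1 : (fun w => (F w - A w) ^ 2) = fun w => (F w * F w - 2 * (F w * A w)) + A w * A w := by
      funext w; ring
    rw [e1, Ex_add, Ex_sub, Ex_mul_left, hFA]
    linarith
  -- stationary second moment
  have hcard0 : (0 : ℝ) < Fintype.card (St k r L R U) := by
    have : 0 < Fintype.card (St k r L R U) := Fintype.card_pos_iff.2 ⟨z0⟩
    exact_mod_cast this
  have hstat : ∑ y : St k r L R U, Φ y.1 * Φ y.1 =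
      (X.card * 2 ^ (k * r)) * (Fintype.card (St k r L R U) : ℝ) := by
    have e1 : ∀ y : St k r L R U, Φ y.1 * Φ y.1 = ∑ ω ∈ P, ∑ ω' ∈ P,
        sg ((evc φ ω + evc φ ω') y.1) := by
      intro y
      simp only [Φ]
      rw [Finset.sum_mul_sum]
      refine Finset.sum_congr rfl fun ω _ => Finset.sum_congr rfl fun ω' _ => ?_
      rw [AddMonoidHom.add_apply, sg_add]
    simp only [e1]
    rw [Finset.sum_comm]
    have e2 : ∀ ω ∈ P, (∑ y : St k r L R U, ∑ ω' ∈ P, sg ((evc φ ω + evc φ ω') y.1)) =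
        (Fintype.card (St k r L R U) : ℝ) := by
      intro ω hω
      rw [Finset.sum_comm, Finset.sum_eq_single_of_mem ω hω]
      · have e3 : ∀ y : St k r L R U, sg ((evc φ ω + evc φ ω) y.1) = 1 := by
          intro y
          rw [AddMonoidHom.add_apply, sg_add, sg_mul_self]
        simp only [e3]
        simp
      · intro ω' _ hne
        apply sum_char_zero
        intro h0
        have h1 : (evc φ ω + evc φ ω') (Pi.single ω (u (0, false, 0))) = 0 := by
          rw [h0]; rfl
        rw [AddMonoidHom.add_apply, evc_apply, evc_apply, Pi.single_eq_same,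
          Pi.single_eq_of_ne hne, map_zero, add_zero] at h1
        exact hφ h1
    rw [Finset.sum_congr rfl e2, Finset.sum_const, nsmul_eq_mul, hPcard]
  -- the set S
  let S : Finset (St k r L R U) := univ.filter (fun y => A0 / 2 ≤ Φ y.1)
  have hS : (S.card : ℝ) / (Fintype.card (St k r L R U) : ℝ) ≤
      4 * X.card * 4 ^ (k * r) / A0 ^ 2 := by
    have e1 : (S.card : ℝ) * (A0 / 2) ^ 2 ≤ ∑ y : St k r L R U, Φ y.1 * Φ y.1 := by
      calc (S.card : ℝ) * (A0 / 2) ^ 2 = ∑ y ∈ S, (A0 / 2) ^ 2 := by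
            rw [Finset.sum_const, nsmul_eq_mul]
        _ ≤ ∑ y ∈ S, Φ y.1 * Φ y.1 := by
            refine Finset.sum_le_sum fun y hy => ?_
            have hy' : A0 / 2 ≤ Φ y.1 := (Finset.mem_filter.1 hy).2
            nlinarith
        _ ≤ ∑ y : St k r L R U, Φ y.1 * Φ y.1 := by
            refine Finset.sum_le_sum_of_subset_of_nonneg (Finset.subset_univ _) fun y _ _ => ?_
            exact mul_self_nonneg _
    rw [hstat] at e1
    have e2 : (2 : ℝ) ^ (k * r) ≤ 4 ^ (k * r) := pow_le_pow_left₀ (by norm_num) (by norm_num) _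
    have e3 : (X.card : ℝ) * 2 ^ (k * r) ≤ X.card * 4 ^ (k * r) :=
      mul_le_mul_of_nonneg_left e2 (Nat.cast_nonneg _)
    rw [div_le_div_iff₀ hcard0 (by positivity)]
    nlinarith [mul_le_mul_of_nonneg_right e3 hcard0.le]
  have hPS : Pr t (fun w => A0 ≤ ((X.filter (fun x => ∃ f : Lbl k r, NB x f t w)).card : ℝ)) -
      4 * X.card * 4 ^ (k * r) / A0 ^ 2 ≤ Pr t (fun w => run (step s q u) z0 w t ∈ S) := by
    have e1 : Pr t (fun w => A0 ≤ ((X.filter (fun x => ∃ f : Lbl k r, NB x f t w)).card : ℝ)) ≤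
        Pr t (fun w => run (step s q u) z0 w t ∈ S ∨ (A0 / 2) ^ 2 ≤ (F w - A w) ^ 2) := by
      apply Pr_mono
      intro w hw
      by_cases h : A0 / 2 ≤ F w
      · left
        simp only [S, Finset.mem_filter, Finset.mem_univ, true_and]
        exact h
      · right
        push Not at h
        have hA : ((X.filter (fun x => ∃ f : Lbl k r, NB x f t w)).card : ℝ) ≤ A w := by
          have e2 : A w = ∑ x ∈ X, ∑ f : Lbl k r, al s q u t (evc φ (x, f)) w := by
            simp only [A, P]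
            rw [Finset.sum_product]
          rw [e2, Finset.card_filter]
          push_cast
          refine Finset.sum_le_sum fun x _ => ?_
          split_ifs with hx
          · obtain ⟨f, hf⟩ := hx
            rw [← al_of_NB (s := s) (q := q) (u := u) φ hf]
            exact Finset.single_le_sum (f := fun f => al s q u t (evc φ (x, f)) w)
              (fun f _ => al_nonneg _ _ _) (Finset.mem_univ f)
          · exact Finset.sum_nonneg fun f _ => al_nonneg _ _ _
        have h1 : A0 / 2 ≤ A w - F w := by linarith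
        nlinarith
    have e2 := Pr_or_le (t := t) (fun w => run (step s q u) z0 w t ∈ S)
      (fun w => (A0 / 2) ^ 2 ≤ (F w - A w) ^ 2)
    have e3 : Pr t (fun w => (A0 / 2) ^ 2 ≤ (F w - A w) ^ 2) ≤
        Ex t (fun w => (F w - A w) ^ 2) / (A0 / 2) ^ 2 :=
      Pr_le_Ex (fun w => sq_nonneg _) (by positivity) (fun w hw => hw)
    have e4 : Ex t (fun w => (F w - A w) ^ 2) / (A0 / 2) ^ 2 ≤
        4 * X.card * 4 ^ (k * r) / A0 ^ 2 := by
      rw [div_le_div_iff₀ (by positivity) (by positivity)]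
      nlinarith [mul_le_mul_of_nonneg_right hVar (show (0 : ℝ) ≤ A0 ^ 2 by positivity)]
    linarith
  have hmain := tv_ge_set (V := St k r L R U)
    (fun y => Pr t (fun w => run (step s q u) z0 w t = y)) (by
      rw [sum_Pr t (fun w => run (step s q u) z0 w t) Finset.univ]
      simp only [Finset.mem_univ]
      unfold Pr
      simp only [if_true]
      exact Ex_const 1) S
  rw [sum_Pr t (fun w => run (step s q u) z0 w t) S] at hmain
  have h8 : 8 * (X.card : ℝ) * 4 ^ (k * r) / A0 ^ 2 =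
      4 * X.card * 4 ^ (k * r) / A0 ^ 2 + 4 * X.card * 4 ^ (k * r) / A0 ^ 2 := by ring
  rw [h8]
  linarith

end Pool.Agent.Helper55.PC
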